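import Pool.Agent.Helper7.OV.Goals1

/-!
# OV-LIN: linearity of the conditions
-/

set_option autoImplicit false

namespace Pool.Agent.Helper53.OV.LIN

open Pool.Agent.Helper7.OV

theorem cond_add {u v T : ℤ} {m m' : Ser} (h : Cond u v T m) (h' : Cond u v T m') :
    Cond u v T (fun k l => m k l + m' k l) := by
  intro k l hk
  change m k l + m' k l = 0
  rw [h k l hk, h' k l hk, add_zero]

theorem cond_sub {u v T : ℤ} {m m' : Ser} (h : Cond u v T m) (h' : Cond u v T m') :
    Cond u v T (fun k l => m k l - m' k l) := by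
  intro k l hk
  change m k l - m' k l = 0
  rw [h k l hk, h' k l hk, sub_zero]

theorem cond_eq {u v T T' : ℤ} {m m' : Ser} (h : Cond u v T m) (e : ∀ k l, m' k l = m k l)
    (hT : T' ≤ T) : Cond u v T' m' := by
  intro k l hk
  rw [e k l, h k l (lt_of_lt_of_le hk hT)]

theorem t : S_LIN := by
  intro hA hW hD
  obtain ⟨A1, A2, A3, A4, A5, A6, A7, A8, -, -, -, -⟩ := hA
  have B1 : ∀ (F G : P2) (m : Ser) (k l : ℤ), act (F - G) m k l = act F m k l - act G m k l := by
    intro F G m k l
    have h := congrFun (congrFun (A1 (F - G) G m) k) l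
    rw [sub_add_cancel] at h
    rw [h]
    ring
  have B8 : ∀ (F G : P2) (k l : ℤ), cf (F - G) k l = cf F k l - cf G k l := by
    intro F G k l
    have h := A8 (F - G) G k l
    rw [sub_add_cancel] at h
    rw [h]
    ring
  have C1 : ∀ (F G : P2) (m : Ser) (k l : ℤ), act (F + G) m k l = act F m k l + act G m k l :=
    fun F G m k l => congrFun (congrFun (A1 F G m) k) l
  refine ⟨?_, ?_, ?_⟩
  · intro s t d S a b ha hb
    refine ⟨⟨?_, ?_, ?_, ?_, ?_, ?_, ?_⟩, ⟨?_, ?_, ?_, ?_, ?_, ?_, ?_⟩⟩
    · exact cond_eq (cond_add ha.c1 hb.c1) (fun k l => by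
        change cf (a 0 + b 0) k l + act (a 1 + b 1) fq k l = _
        rw [A8, C1]; ring) le_rfl
    · exact cond_eq (cond_add ha.c2 hb.c2) (fun k l => by
        change cf (a 2 + b 2) k l = _
        rw [A8]) le_rfl
    · exact cond_eq (cond_add ha.c3 hb.c3) (fun k l => by
        change cf (a 0 + b 0) k l + act (a 2 + b 2) fp k l = _
        rw [A8, C1]; ring) le_rfl
    · exact cond_eq (cond_add ha.c4 hb.c4) (fun k l => by
        change cf (a 1 + b 1) k l = _
        rw [A8]) le_rfl
    · exact cond_eq (cond_add ha.c5 hb.c5) (fun k l => by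
        change cf (a 0 + b 0) k l = _
        rw [A8]) le_rfl
    · exact cond_eq (cond_add ha.c6 hb.c6) (fun k l => by
        change cf (a 2 + b 2) k l + d * act (a 1 + b 1) fi k l = _
        rw [A8, C1]; ring) le_rfl
    · exact cond_eq (cond_add ha.c7 hb.c7) (fun k l => by
        change cf (a 1 + b 1) k l = _
        rw [A8]) le_rfl
    · exact cond_eq (cond_sub ha.c1 hb.c1) (fun k l => by
        change cf (a 0 - b 0) k l + act (a 1 - b 1) fq k l = _
        rw [B8, B1]; ring) le_rfl
    · exact cond_eq (cond_sub ha.c2 hb.c2) (fun k l => by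
        change cf (a 2 - b 2) k l = _
        rw [B8]) le_rfl
    · exact cond_eq (cond_sub ha.c3 hb.c3) (fun k l => by
        change cf (a 0 - b 0) k l + act (a 2 - b 2) fp k l = _
        rw [B8, B1]; ring) le_rfl
    · exact cond_eq (cond_sub ha.c4 hb.c4) (fun k l => by
        change cf (a 1 - b 1) k l = _
        rw [B8]) le_rfl
    · exact cond_eq (cond_sub ha.c5 hb.c5) (fun k l => by
        change cf (a 0 - b 0) k l = _
        rw [B8]) le_rfl
    · exact cond_eq (cond_sub ha.c6 hb.c6) (fun k l => by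
        change cf (a 2 - b 2) k l + d * act (a 1 - b 1) fi k l = _
        rw [B8, B1]; ring) le_rfl
    · exact cond_eq (cond_sub ha.c7 hb.c7) (fun k l => by
        change cf (a 1 - b 1) k l = _
        rw [B8]) le_rfl
  · intro s t x y d S a G hG ha
    have hG' := (hD.1 G x y).1 hG
    have w0 : ∀ (T : ℤ) (m m' : Ser), Cond 0 1 T m → (∀ k l, m' k l = act G m k l) →
        Cond 0 1 T m' := by
      intro T m m' h e
      exact cond_eq (hW 0 1 T 0 G m (fun i j _ => by positivity) h) e (by omega)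
    have w1 : ∀ (T : ℤ) (m m' : Ser), Cond 1 0 T m → (∀ k l, m' k l = act G m k l) →
        Cond 1 0 T m' := by
      intro T m m' h e
      exact cond_eq (hW 1 0 T 0 G m (fun i j _ => by positivity) h) e (by omega)
    have w2 : ∀ (T T' : ℤ) (m m' : Ser), Cond (-t) (-s) T m → (∀ k l, m' k l = act G m k l) →
        T' = T - (x * t + y * s) → Cond (-t) (-s) T' m' := by
      intro T T' m m' h e hT
      refine cond_eq (hW (-t) (-s) T (-(x * t + y * s)) G m (fun i j hij => ?_) h) e (by omega)
      obtain ⟨h1, h2⟩ := hG' i j hij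
      have h3 : (t : ℤ) * i ≤ t * x := by
        have : (i : ℤ) ≤ x := by exact_mod_cast h1
        nlinarith [Int.natCast_nonneg t]
      have h4 : (s : ℤ) * j ≤ s * y := by
        have : (j : ℤ) ≤ y := by exact_mod_cast h2
        nlinarith [Int.natCast_nonneg s]
      linarith
    have e2 : ∀ (F H : P2) (m : Ser) (k l : ℤ), cf (G * F) k l + act (G * H) m k l =
        act G (fun k l => cf F k l + act H m k l) k l := by
      intro F H m k l
      rw [congrFun (congrFun (A2 G (cf F) (act H m)) k) l, A6, A5]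
    have e1 : ∀ (F : P2) (k l : ℤ), cf (G * F) k l = act G (cf F) k l := by
      intro F k l
      rw [A6]
    refine ⟨?_, ?_, ?_, ?_, ?_, ?_, ?_⟩
    · exact w0 _ _ _ ha.c1 (fun k l => e2 _ _ _ k l)
    · exact w0 _ _ _ ha.c2 (fun k l => e1 _ k l)
    · exact w1 _ _ _ ha.c3 (fun k l => e2 _ _ _ k l)
    · exact w1 _ _ _ ha.c4 (fun k l => e1 _ k l)
    · exact w2 _ _ _ _ ha.c5 (fun k l => e1 _ k l) (by ring)
    · refine w2 _ _ _ _ ha.c6 (fun k l => ?_) (by ring)
      change cf (G * a 2) k l + d * act (G * a 1) fi k l = _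
      rw [congrFun (congrFun (A2 G (cf (a 2)) (fun k l => d * act (a 1) fi k l)) k) l, A6, A5,
        congrFun (congrFun (A3 G d (act (a 1) fi)) k) l]
    · exact w2 _ _ _ _ ha.c7 (fun k l => e1 _ k l) (by ring)
  · intro s t d S S' a hS ha
    refine ⟨ha.c1, ha.c2, ha.c3, ha.c4, ?_, ?_, ?_⟩
    · exact cond_eq ha.c5 (fun _ _ => rfl) (by omega)
    · exact cond_eq ha.c6 (fun _ _ => rfl) (by linarith)
    · exact cond_eq ha.c7 (fun _ _ => rfl) (by linarith)

end Pool.Agent.Helper53.OV.LIN
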