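import Pool.Agent.Helper53.OV.VIc

/-!
# OV-VI: the real value
-/

set_option autoImplicit false

namespace Pool.Agent.Helper53.OV.VI

open Pool.Agent.Helper7.OV
open Finset

theorem act_fi {s t : ℕ} (ht : 1 ≤ t) (hts : t ≤ s) (S : ℤ) (B : P2)
    (hB : Cond (-t) (-s) (-(S + s * t)) (cf B)) (k l : ℤ) (hkl : S - s * t < k * t + l * s) :
    act B fi k l = ∑ i ∈ range (2 * s), ∑ j ∈ range (2 * t), al i * be j * cf B (k + i) (l + j) := by
  obtain ⟨N, hN⟩ := exists_DL B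
  rw [act_box hN]
  have h1 : ∑ i ∈ range (2 * s), ∑ j ∈ range (2 * t), al i * be j * cf B (k + i) (l + j) =
      ∑ z ∈ bx N, (co B z.1 z.2 : ℚ) *
        ((∑ i ∈ range (2 * s), al i * (if (z.1 : ℤ) = k + i then 1 else 0)) *
          (∑ j ∈ range (2 * t), be j * (if (z.2 : ℤ) = l + j then 1 else 0))) := by
    have h2 : ∀ z : ℕ × ℕ, (co B z.1 z.2 : ℚ) *
        ((∑ i ∈ range (2 * s), al i * (if (z.1 : ℤ) = k + i then 1 else 0)) *
          (∑ j ∈ range (2 * t), be j * (if (z.2 : ℤ) = l + j then 1 else 0))) =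
        ∑ i ∈ range (2 * s), ∑ j ∈ range (2 * t), al i * be j * ((co B z.1 z.2 : ℚ) *
          ((if (z.1 : ℤ) = k + i then 1 else 0) * (if (z.2 : ℤ) = l + j then 1 else 0))) := by
      intro z
      rw [Finset.sum_mul_sum, Finset.mul_sum]
      refine Finset.sum_congr rfl fun i _ ↦ ?_
      rw [Finset.mul_sum]
      refine Finset.sum_congr rfl fun j _ ↦ ?_
      ring
    symm
    rw [Finset.sum_congr rfl fun z _ ↦ h2 z, Finset.sum_comm]
    refine Finset.sum_congr rfl fun i _ ↦ ?_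
    rw [Finset.sum_comm]
    refine Finset.sum_congr rfl fun j _ ↦ ?_
    rw [cf_box hN, Finset.mul_sum]
  rw [h1]
  refine Finset.sum_congr rfl ?_
  rintro ⟨a, b⟩ _
  simp only
  by_cases h0 : co B a b = 0
  · rw [h0]
    simp
  congr 1
  have hs1 : 1 ≤ s := ht.trans hts
  have hab : (a : ℤ) * t + b * s ≤ S + s * t := by
    by_contra hlt
    rw [not_le] at hlt
    have h3 := hB a b (by linarith)
    unfold cf at h3
    rw [if_pos ⟨Int.natCast_nonneg _, Int.natCast_nonneg _⟩] at h3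
    simp only [Int.toNat_natCast] at h3
    exact h0 (by exact_mod_cast h3)
  unfold fi
  by_cases ha : k - a ≤ 0
  · by_cases hb : l - b ≤ 0
    · have ht' : (1 : ℤ) ≤ t := by exact_mod_cast ht
      have hs' : (1 : ℤ) ≤ s := by exact_mod_cast hs1
      have h4 : ((a : ℤ) - k) * t + ((b : ℤ) - l) * s < 2 * s * t := by linarith
      have h5 : (a : ℤ) - k < ((2 * s : ℕ) : ℤ) := by
        push_cast
        by_contra hlt
        rw [not_lt] at hlt
        have e1 : 2 * (s : ℤ) * t ≤ ((a : ℤ) - k) * t := mul_le_mul_of_nonneg_right hlt (by omega)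
        have e2 : 0 ≤ ((b : ℤ) - l) * s := mul_nonneg (by omega) (by omega)
        linarith
      have h6 : (b : ℤ) - l < ((2 * t : ℕ) : ℤ) := by
        push_cast
        by_contra hlt
        rw [not_lt] at hlt
        have e1 : 2 * (t : ℤ) * s ≤ ((b : ℤ) - l) * s := mul_le_mul_of_nonneg_right hlt (by omega)
        have e2 : 0 ≤ ((a : ℤ) - k) * t := mul_nonneg (by omega) (by omega)
        linarith
      rw [if_pos ⟨ha, hb⟩, sum_delta al _ _ _ h5, sum_delta be _ _ _ h6, if_pos ha, if_pos hb]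
    · rw [if_neg (fun h ↦ hb h.2)]
      have : ∑ j ∈ range (2 * t), be j * (if (b : ℤ) = l + j then 1 else 0) = 0 := by
        refine Finset.sum_eq_zero fun j _ ↦ ?_
        rw [if_neg (by omega), mul_zero]
      rw [this, mul_zero]
  · rw [if_neg (fun h ↦ ha h.1)]
    have : ∑ i ∈ range (2 * s), al i * (if (a : ℤ) = k + i then 1 else 0) = 0 := by
      refine Finset.sum_eq_zero fun j _ ↦ ?_
      rw [if_neg (by omega), mul_zero]
    rw [this, zero_mul]

/-- the total weight -/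
noncomputable def psi (p q : ℕ) (k l : ℤ) : ℝ := (p : ℝ) ^ k * (q : ℝ) ^ l

open Classical in
/-- the part of large weight -/
noncomputable def phi (p q s t : ℕ) (S : ℤ) (k l : ℤ) : ℝ :=
  if S - s * t < k * t + l * s then psi p q k l else 0

theorem psi_sub_phi {s t p q : ℕ} (hp : 2 ≤ p) (hpq : p < q) (ht : 1 ≤ t) (hts : t ≤ s)
    (hUV : p ^ s < q ^ t) (hVU : q ^ t ≤ 2 * p ^ s) (S k l : ℤ) (hk : -(2 * (s : ℤ)) < k) :
    |(q : ℝ) ^ t * (psi p q k l - phi p q s t S k l)| ≤ 4 * Real.exp ((S : ℝ) / s * Real.log q) := by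
  unfold phi
  split_ifs with h
  · rw [sub_self, mul_zero, abs_zero]
    positivity
  · rw [sub_zero]
    unfold psi
    rw [abs_of_nonneg (by positivity)]
    exact wt_bound hp hpq ht hts hUV hVU S k l hk (not_lt.1 h)

theorem psi_shift {p q : ℕ} (hp : 0 < p) (hq : 0 < q) (a b i j : ℕ) :
    psi p q ((a : ℤ) - i) ((b : ℤ) - j) =
      ((p : ℝ) ^ a * (q : ℝ) ^ b) * ((1 / (p : ℝ)) ^ i * (1 / (q : ℝ)) ^ j) := by
  have hp0 : (p : ℝ) ≠ 0 := by exact_mod_cast hp.ne'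
  have hq0 : (q : ℝ) ≠ 0 := by exact_mod_cast hq.ne'
  unfold psi
  rw [zpow_sub₀ hp0, zpow_sub₀ hq0]
  simp only [zpow_natCast, one_div, inv_pow]
  field_simp

theorem Z_bound (hS : S_SQR) {s t p q : ℕ} (d S : ℤ) (B C : P2) (hp : 2 ≤ p) (hpq : p < q)
    (ht : 1 ≤ t) (hts : t ≤ s) (hUV : p ^ s < q ^ t) (hVU : q ^ t ≤ 2 * p ^ s)
    (hd : d = 1 ∨ d = -1)
    (hC : Cond (-t) (-s) (-(S - s * t)) (fun k l => cf C k l + d * act B fi k l))
    (hB : Cond (-t) (-s) (-(S + s * t)) (cf B)) :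
    |(q : ℝ) ^ t * ((ev p q C : ℝ) + d * ((ev p q B : ℝ) *
      (Aa (2 * s) (1 / p) * Bb (2 * t) (1 / q))))| ≤
      4 * Real.exp ((S : ℝ) / s * Real.log q) * ((len C : ℝ) + 4 * (s : ℝ) ^ 2 * len B) := by
  classical
  obtain ⟨N, hNB, hNC⟩ := exists_DL2 B C
  have hp0 : 0 < p := by omega
  have hq0 : 0 < q := by omega
  set E := Real.exp ((S : ℝ) / s * Real.log q) with hE
  -- the two sums
  have hCP : (ev p q C : ℝ) = ∑ z ∈ bx N, (co C z.1 z.2 : ℝ) * psi p q z.1 z.2 := by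
    rw [ev_box hNC]
    push_cast
    refine Finset.sum_congr rfl fun z _ ↦ ?_
    unfold psi
    simp only [zpow_natCast]
  have hBP : (ev p q B : ℝ) * (Aa (2 * s) (1 / p) * Bb (2 * t) (1 / q)) =
      ∑ i ∈ range (2 * s), ∑ j ∈ range (2 * t), ∑ z ∈ bx N,
        ((al i : ℝ) * (be j : ℝ)) * ((co B z.1 z.2 : ℝ) * psi p q (z.1 - i) (z.2 - j)) := by
    unfold Aa Bb
    rw [Finset.sum_mul_sum, Finset.mul_sum]
    refine Finset.sum_congr rfl fun i _ ↦ ?_
    rw [Finset.mul_sum]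
    refine Finset.sum_congr rfl fun j _ ↦ ?_
    rw [ev_box hNB]
    push_cast
    rw [Finset.sum_mul]
    refine Finset.sum_congr rfl fun z _ ↦ ?_
    rw [psi_shift hp0 hq0]
    ring
  -- the part of large weight is zero
  set M := N + 2 * s + 2 * t with hM
  set G := Finset.Icc (-(M : ℤ)) M ×ˢ Finset.Icc (-(M : ℤ)) M with hG
  have hzero : ∑ z ∈ bx N, (co C z.1 z.2 : ℝ) * phi p q s t S z.1 z.2 +
      d * ∑ i ∈ range (2 * s), ∑ j ∈ range (2 * t), ∑ z ∈ bx N,
        ((al i : ℝ) * (be j : ℝ)) * ((co B z.1 z.2 : ℝ) * phi p q s t S (z.1 - i) (z.2 - j)) = 0 := by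
    have h1 : ∑ z ∈ bx N, (co C z.1 z.2 : ℝ) * phi p q s t S z.1 z.2 =
        ∑ w ∈ G, (cf C w.1 w.2 : ℝ) * phi p q s t S w.1 w.2 := by
      have := shift_sum hNC 0 0 M (by omega) (phi p q s t S)
      simp only [Nat.cast_zero, add_zero, sub_zero] at this
      exact this.symm
    have h2 : ∀ i ∈ range (2 * s), ∀ j ∈ range (2 * t),
        ∑ z ∈ bx N, ((al i : ℝ) * (be j : ℝ)) * ((co B z.1 z.2 : ℝ) *
          phi p q s t S (z.1 - i) (z.2 - j)) =
        ∑ w ∈ G, ((al i : ℝ) * (be j : ℝ)) * ((cf B (w.1 + i) (w.2 + j) : ℝ) *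
          phi p q s t S w.1 w.2) := by
      intro i hi j hj
      rw [mem_range] at hi hj
      rw [← Finset.mul_sum, ← Finset.mul_sum, shift_sum hNB i j M (by omega)]
    rw [h1, Finset.sum_congr rfl fun i hi ↦ Finset.sum_congr rfl fun j hj ↦ h2 i hi j hj]
    have h3 : ∑ i ∈ range (2 * s), ∑ j ∈ range (2 * t), ∑ w ∈ G, ((al i : ℝ) * (be j : ℝ)) *
        ((cf B (w.1 + i) (w.2 + j) : ℝ) * phi p q s t S w.1 w.2) =
        ∑ w ∈ G, (∑ i ∈ range (2 * s), ∑ j ∈ range (2 * t), (al i : ℝ) * (be j : ℝ) *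
          (cf B (w.1 + i) (w.2 + j) : ℝ)) * phi p q s t S w.1 w.2 := by
      symm
      calc ∑ w ∈ G, (∑ i ∈ range (2 * s), ∑ j ∈ range (2 * t), (al i : ℝ) * (be j : ℝ) *
            (cf B (w.1 + i) (w.2 + j) : ℝ)) * phi p q s t S w.1 w.2 =
          ∑ w ∈ G, ∑ i ∈ range (2 * s), ∑ j ∈ range (2 * t), ((al i : ℝ) * (be j : ℝ)) *
            ((cf B (w.1 + i) (w.2 + j) : ℝ) * phi p q s t S w.1 w.2) := by
            refine Finset.sum_congr rfl fun w _ ↦ ?_
            rw [Finset.sum_mul]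
            refine Finset.sum_congr rfl fun i _ ↦ ?_
            rw [Finset.sum_mul]
            refine Finset.sum_congr rfl fun j _ ↦ ?_
            ring
        _ = _ := by
            rw [Finset.sum_comm]
            refine Finset.sum_congr rfl fun i _ ↦ ?_
            rw [Finset.sum_comm]
    rw [h3, Finset.mul_sum, ← Finset.sum_add_distrib]
    refine Finset.sum_eq_zero ?_
    rintro ⟨k, l⟩ _
    simp only
    by_cases hkl : S - s * t < k * t + l * s
    · have h4 := act_fi ht hts S B hB k l hkl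
      have h5 := hC k l (by linarith)
      simp only at h5
      rw [h4] at h5
      have h6 : ((cf C k l + d * ∑ i ∈ range (2 * s), ∑ j ∈ range (2 * t),
          al i * be j * cf B (k + i) (l + j) : ℚ) : ℝ) = ((0 : ℚ) : ℝ) := by rw [h5]
      push_cast at h6
      rw [← mul_assoc, ← add_mul, h6, zero_mul]
    · have : phi p q s t S k l = 0 := by
        unfold phi
        rw [if_neg hkl]
      rw [this]
      simp
  -- the difference
  have hdiff : (q : ℝ) ^ t * ((ev p q C : ℝ) + d * ((ev p q B : ℝ) *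
      (Aa (2 * s) (1 / p) * Bb (2 * t) (1 / q)))) =
      ∑ z ∈ bx N, (co C z.1 z.2 : ℝ) * ((q : ℝ) ^ t *
        (psi p q z.1 z.2 - phi p q s t S z.1 z.2)) +
      d * ∑ i ∈ range (2 * s), ∑ j ∈ range (2 * t), ∑ z ∈ bx N,
        ((al i : ℝ) * (be j : ℝ)) * ((co B z.1 z.2 : ℝ) * ((q : ℝ) ^ t *
          (psi p q (z.1 - i) (z.2 - j) - phi p q s t S (z.1 - i) (z.2 - j)))) := by
    rw [hCP, hBP]
    have e1 : ∑ z ∈ bx N, (co C z.1 z.2 : ℝ) * ((q : ℝ) ^ t *
        (psi p q z.1 z.2 - phi p q s t S z.1 z.2)) =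
        (q : ℝ) ^ t * (∑ z ∈ bx N, (co C z.1 z.2 : ℝ) * psi p q z.1 z.2) -
        (q : ℝ) ^ t * (∑ z ∈ bx N, (co C z.1 z.2 : ℝ) * phi p q s t S z.1 z.2) := by
      rw [Finset.mul_sum, Finset.mul_sum, ← Finset.sum_sub_distrib]
      refine Finset.sum_congr rfl fun z _ ↦ ?_
      ring
    have e2 : ∑ i ∈ range (2 * s), ∑ j ∈ range (2 * t), ∑ z ∈ bx N,
        ((al i : ℝ) * (be j : ℝ)) * ((co B z.1 z.2 : ℝ) * ((q : ℝ) ^ t *
          (psi p q (z.1 - i) (z.2 - j) - phi p q s t S (z.1 - i) (z.2 - j)))) =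
        (q : ℝ) ^ t * (∑ i ∈ range (2 * s), ∑ j ∈ range (2 * t), ∑ z ∈ bx N,
        ((al i : ℝ) * (be j : ℝ)) * ((co B z.1 z.2 : ℝ) * psi p q (z.1 - i) (z.2 - j))) -
        (q : ℝ) ^ t * (∑ i ∈ range (2 * s), ∑ j ∈ range (2 * t), ∑ z ∈ bx N,
        ((al i : ℝ) * (be j : ℝ)) * ((co B z.1 z.2 : ℝ) *
          phi p q s t S (z.1 - i) (z.2 - j))) := by
      rw [← mul_sub, ← Finset.sum_sub_distrib, Finset.mul_sum]
      refine Finset.sum_congr rfl fun i _ ↦ ?_
      rw [← Finset.sum_sub_distrib, Finset.mul_sum]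
      refine Finset.sum_congr rfl fun j _ ↦ ?_
      rw [← Finset.sum_sub_distrib, Finset.mul_sum]
      refine Finset.sum_congr rfl fun z _ ↦ ?_
      ring
    rw [e1, e2]
    linear_combination (q : ℝ) ^ t * hzero
  rw [hdiff]
  -- the estimate
  have hs1 : 1 ≤ s := ht.trans hts
  have hE0 : 0 < E := Real.exp_pos _
  have hdabs : |(d : ℝ)| = 1 := by
    rcases hd with rfl | rfl <;> simp
  have b1 : |∑ z ∈ bx N, (co C z.1 z.2 : ℝ) * ((q : ℝ) ^ t *
        (psi p q z.1 z.2 - phi p q s t S z.1 z.2))| ≤ 4 * E * len C := by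
    refine (Finset.abs_sum_le_sum_abs _ _).trans ?_
    rw [len_box_real hNC, Finset.mul_sum]
    refine Finset.sum_le_sum fun z _ ↦ ?_
    rw [abs_mul, mul_comm (4 * E)]
    exact mul_le_mul_of_nonneg_left
      (psi_sub_phi hp hpq ht hts hUV hVU S _ _ (by omega)) (abs_nonneg _)
  have hal : ∀ i j, |(al i : ℝ) * (be j : ℝ)| ≤ 1 := by
    intro i j
    have h1 := (hS.2.2.2.1 i).1
    obtain ⟨-, h2, h3⟩ := hS.2.2.2.1 j
    have h1' : |(al i : ℝ)| ≤ 1 := by
      have h : ((|al i| : ℚ) : ℝ) ≤ ((1 : ℚ) : ℝ) := by exact_mod_cast h1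
      push_cast at h
      exact h
    have h2' : (0 : ℝ) ≤ (be j : ℝ) := by exact_mod_cast h2
    have h3' : (be j : ℝ) ≤ 1 := by exact_mod_cast h3
    rw [abs_mul, abs_of_nonneg h2']
    nlinarith [abs_nonneg (al i : ℝ)]
  have b2 : ∀ i ∈ range (2 * s), ∀ j ∈ range (2 * t), |∑ z ∈ bx N,
        ((al i : ℝ) * (be j : ℝ)) * ((co B z.1 z.2 : ℝ) * ((q : ℝ) ^ t *
          (psi p q (z.1 - i) (z.2 - j) - phi p q s t S (z.1 - i) (z.2 - j))))| ≤
        4 * E * len B := by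
    intro i hi j _
    rw [mem_range] at hi
    refine (Finset.abs_sum_le_sum_abs _ _).trans ?_
    rw [len_box_real hNB, Finset.mul_sum]
    refine Finset.sum_le_sum fun z _ ↦ ?_
    rw [abs_mul, abs_mul (co B z.1 z.2 : ℝ)]
    have h1 := psi_sub_phi hp hpq ht hts hUV hVU S ((z.1 : ℤ) - i) ((z.2 : ℤ) - j) (by omega)
    have h2 : |(co B z.1 z.2 : ℝ)| * |(q : ℝ) ^ t *
        (psi p q (z.1 - i) (z.2 - j) - phi p q s t S (z.1 - i) (z.2 - j))| ≤
        |(co B z.1 z.2 : ℝ)| * (4 * E) := mul_le_mul_of_nonneg_left h1 (abs_nonneg _)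
    calc |(al i : ℝ) * (be j : ℝ)| * (|(co B z.1 z.2 : ℝ)| * |(q : ℝ) ^ t *
        (psi p q (z.1 - i) (z.2 - j) - phi p q s t S (z.1 - i) (z.2 - j))|) ≤
        1 * (|(co B z.1 z.2 : ℝ)| * (4 * E)) :=
          mul_le_mul (hal i j) h2 (by positivity) zero_le_one
      _ = 4 * E * |(co B z.1 z.2 : ℝ)| := by ring
  have b3 : |∑ i ∈ range (2 * s), ∑ j ∈ range (2 * t), ∑ z ∈ bx N,
        ((al i : ℝ) * (be j : ℝ)) * ((co B z.1 z.2 : ℝ) * ((q : ℝ) ^ t *
          (psi p q (z.1 - i) (z.2 - j) - phi p q s t S (z.1 - i) (z.2 - j))))| ≤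
        (2 * s) * ((2 * t) * (4 * E * len B)) := by
    refine (Finset.abs_sum_le_sum_abs _ _).trans ?_
    refine (Finset.sum_le_sum (g := fun _ ↦ (2 * (t : ℝ)) * (4 * E * len B))
      fun i hi ↦ ?_).trans ?_
    · refine (Finset.abs_sum_le_sum_abs _ _).trans ?_
      refine (Finset.sum_le_sum (g := fun _ ↦ 4 * E * (len B : ℝ)) fun j hj ↦ b2 i hi j hj).trans ?_
      rw [Finset.sum_const, card_range, nsmul_eq_mul]
      push_cast
      exact le_rfl
    · rw [Finset.sum_const, card_range, nsmul_eq_mul]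
      push_cast
      exact le_rfl
  refine (abs_add_le _ _).trans ?_
  rw [abs_mul, hdabs, one_mul]
  have hts' : (t : ℝ) ≤ s := by exact_mod_cast hts
  have hs0 : (0 : ℝ) ≤ s := by positivity
  have hlB : (0 : ℝ) ≤ len B := by positivity
  have b4 : (2 * (s : ℝ)) * ((2 * t) * (4 * E * len B)) ≤
      4 * E * (4 * (s : ℝ) ^ 2 * len B) := by
    have h1 : (s : ℝ) * t ≤ s * s := mul_le_mul_of_nonneg_left hts' hs0
    have h2 : (s : ℝ) * t * (16 * E * len B) ≤ s * s * (16 * E * len B) :=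
      mul_le_mul_of_nonneg_right h1 (by positivity)
    linarith
  linarith

theorem t : S_VI := by
  intro hS _ s t p q d S B C hp hpq ht hts hUV hVU heq hd hC hB
  have hZ := Z_bound hS d S B C hp hpq ht hts hUV hVU hd hC hB
  have hr := near hS s t p q hp hpq ht hts hUV hVU heq
  have hBb := B_bound hp hpq ht hts hUV hVU S B hB
  set E := Real.exp ((S : ℝ) / s * Real.log q) with hE
  have hE0 : 0 < E := Real.exp_pos _
  set F := Aa (2 * s) (1 / (p : ℝ)) * Bb (2 * t) (1 / (q : ℝ)) with hF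
  set U : ℝ := (p : ℝ) ^ s with hU
  set V : ℝ := (q : ℝ) ^ t with hV
  have hq0 : (0 : ℝ) < q := by exact_mod_cast (by omega : 0 < q)
  have hV0 : 0 < V := by positivity
  have hdabs : |(d : ℝ)| = 1 := by
    rcases hd with rfl | rfl <;> simp
  have hs1 : (1 : ℝ) ≤ s := by exact_mod_cast (ht.trans hts)
  have hid : (ev p q B : ℝ) * U * d + (ev p q C : ℝ) * V =
      V * ((ev p q C : ℝ) + d * ((ev p q B : ℝ) * F)) + d * (ev p q B : ℝ) * (U - V * F) := by
    ring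
  rw [hid]
  refine (abs_add_le _ _).trans ?_
  have h1 : |(d : ℝ) * (ev p q B : ℝ) * (U - V * F)| ≤ 306 * (s : ℝ) ^ 2 * (len B * E) := by
    rw [abs_mul, abs_mul, hdabs, one_mul]
    calc |(ev p q B : ℝ)| * |U - V * F| ≤ (len B * (E * V)) * |U - V * F| :=
          mul_le_mul_of_nonneg_right hBb (abs_nonneg _)
      _ = (len B * E) * (|U - V * F| * V) := by ring
      _ ≤ (len B * E) * (306 * (s : ℝ) ^ 2) := mul_le_mul_of_nonneg_left hr (by positivity)
      _ = _ := by ring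
  have hlB : (0 : ℝ) ≤ len B := by positivity
  have hlC : (0 : ℝ) ≤ len C := by positivity
  have hs2 : (1 : ℝ) ≤ (s : ℝ) ^ 2 := by nlinarith
  have hs4 : (s : ℝ) ^ 2 ≤ (s : ℝ) ^ 4 := by nlinarith
  have h2 : 4 * E * ((len C : ℝ) + 4 * (s : ℝ) ^ 2 * len B) + 306 * (s : ℝ) ^ 2 * (len B * E) ≤
      2100 * (s : ℝ) ^ 4 * ((len B : ℝ) + len C) * E := by
    have e1 : (len C : ℝ) * E ≤ (s : ℝ) ^ 4 * (len C * E) :=
      le_mul_of_one_le_left (by positivity) (hs2.trans hs4)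
    have e2 : (s : ℝ) ^ 2 * (len B * E) ≤ (s : ℝ) ^ 4 * (len B * E) :=
      mul_le_mul_of_nonneg_right hs4 (by positivity)
    have e3 : 0 ≤ (s : ℝ) ^ 4 * (len C * E) := by positivity
    have e4 : 0 ≤ (s : ℝ) ^ 4 * (len B * E) := by positivity
    nlinarith
  linarith

end Pool.Agent.Helper53.OV.VI
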