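import Pool.Agent.Helper7.OV.Goals2

/-!
# OV-VI, part a: sums over boxes
-/

set_option autoImplicit false

namespace Pool.Agent.Helper53.OV.VI

open Pool.Agent.Helper7.OV
open Finset

/-- the box -/
def bx (N : ℕ) : Finset (ℕ × ℕ) := range (N + 1) ×ˢ range (N + 1)

theorem exists_DL (F : P2) : ∃ N, DL N N F := by
  refine ⟨F.natDegree + ∑ j ∈ range (F.natDegree + 1), (F.coeff j).natDegree, by omega, ?_⟩
  intro j
  by_cases hj : j ≤ F.natDegree
  · have := Finset.single_le_sum (f := fun j ↦ (F.coeff j).natDegree)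
      (s := range (F.natDegree + 1)) (fun _ _ ↦ Nat.zero_le _) (mem_range.2 (Nat.lt_succ_of_le hj))
    omega
  · rw [Polynomial.coeff_eq_zero_of_natDegree_lt (by omega)]
    simp

theorem DL.mono {a b : ℕ} {F : P2} (h : DL a a F) (hab : a ≤ b) : DL b b F :=
  ⟨h.1.trans hab, fun j ↦ (h.2 j).trans hab⟩

theorem exists_DL2 (F G : P2) : ∃ N, DL N N F ∧ DL N N G := by
  obtain ⟨a, ha⟩ := exists_DL F
  obtain ⟨b, hb⟩ := exists_DL G
  exact ⟨max a b, DL.mono ha (le_max_left _ _), DL.mono hb (le_max_right _ _)⟩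

theorem co_ne {N : ℕ} {F : P2} (h : DL N N F) {i j : ℕ} (hij : co F i j ≠ 0) : i ≤ N ∧ j ≤ N := by
  unfold co at hij
  constructor
  · exact (Polynomial.le_natDegree_of_ne_zero hij).trans (h.2 j)
  · refine (Polynomial.le_natDegree_of_ne_zero (n := j) (p := F) ?_).trans h.1
    intro h0
    rw [h0] at hij
    simp at hij

theorem mem_bx {N i j : ℕ} : (i, j) ∈ bx N ↔ i ≤ N ∧ j ≤ N := by
  unfold bx
  rw [mem_product, mem_range, mem_range]
  simp only
  omega

theorem sum_bx {α : Type} [AddCommMonoid α] (N : ℕ) (f : ℕ → ℕ → α) :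
    ∑ z ∈ bx N, f z.1 z.2 = ∑ j ∈ range (N + 1), ∑ i ∈ range (N + 1), f i j := by
  unfold bx
  rw [Finset.sum_product_right]

theorem ev_box {N : ℕ} {F : P2} (h : DL N N F) (p q : ℤ) :
    ev p q F = ∑ z ∈ bx N, co F z.1 z.2 * (p ^ z.1 * q ^ z.2) := by
  rw [sum_bx N (fun i j ↦ co F i j * (p ^ i * q ^ j))]
  unfold ev Polynomial.evalEval
  rw [Polynomial.eval_eq_sum_range' (n := N + 1) (Nat.lt_succ_of_le h.1), Polynomial.eval_finsetSum]
  refine Finset.sum_congr rfl fun j _ ↦ ?_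
  rw [Polynomial.eval_mul, Polynomial.eval_pow, Polynomial.eval_C,
    Polynomial.eval_eq_sum_range' (n := N + 1) (Nat.lt_succ_of_le (h.2 j)), Finset.sum_mul]
  refine Finset.sum_congr rfl fun i _ ↦ ?_
  unfold co
  ring

theorem len_box {N : ℕ} {F : P2} (h : DL N N F) :
    len F = ∑ z ∈ bx N, (co F z.1 z.2).natAbs := by
  rw [sum_bx N (fun i j ↦ (co F i j).natAbs)]
  unfold len len1 co
  have h1 : F.support ⊆ range (N + 1) := by
    intro j hj
    rw [mem_range]
    exact Nat.lt_succ_of_le ((Polynomial.le_natDegree_of_mem_supp _ hj).trans h.1)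
  rw [← Finset.sum_subset h1 (f := fun j ↦ ∑ i ∈ range (N + 1), ((F.coeff j).coeff i).natAbs)]
  · refine Finset.sum_congr rfl fun j _ ↦ ?_
    refine Finset.sum_subset ?_ ?_
    · intro i hi
      rw [mem_range]
      exact Nat.lt_succ_of_le ((Polynomial.le_natDegree_of_mem_supp _ hi).trans (h.2 j))
    · intro i _ hi
      rw [Polynomial.notMem_support_iff.1 hi]
      rfl
  · intro j _ hj
    rw [Polynomial.notMem_support_iff.1 hj]
    simp

theorem len_box_real {N : ℕ} {F : P2} (h : DL N N F) :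
    (len F : ℝ) = ∑ z ∈ bx N, |(co F z.1 z.2 : ℝ)| := by
  rw [len_box h, Nat.cast_sum]
  refine Finset.sum_congr rfl fun z _ ↦ ?_
  rw [Nat.cast_natAbs, Int.cast_abs]

theorem act_box {N : ℕ} {F : P2} (h : DL N N F) (m : Ser) (k l : ℤ) :
    act F m k l = ∑ z ∈ bx N, (co F z.1 z.2 : ℚ) * m (k - z.1) (l - z.2) := by
  rw [sum_bx N (fun i j ↦ (co F i j : ℚ) * m (k - i) (l - j))]
  unfold act
  have h1 : range (F.natDegree + 1) ⊆ range (N + 1) := by
    intro j hj
    rw [mem_range] at hj ⊢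
    have := h.1
    omega
  rw [← Finset.sum_subset h1
    (f := fun j ↦ ∑ i ∈ range (N + 1), (co F i j : ℚ) * m (k - i) (l - j))]
  · refine Finset.sum_congr rfl fun j _ ↦ ?_
    refine Finset.sum_subset ?_ ?_
    · intro i hi
      rw [mem_range] at hi ⊢
      have := h.2 j
      omega
    · intro i _ hi
      rw [mem_range, not_lt] at hi
      have : co F i j = 0 := by
        unfold co
        exact Polynomial.coeff_eq_zero_of_natDegree_lt (by omega)
      rw [this]
      simp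
  · intro j _ hj
    rw [mem_range, not_lt] at hj
    refine Finset.sum_eq_zero fun i _ ↦ ?_
    have : co F i j = 0 := by
      unfold co
      rw [Polynomial.coeff_eq_zero_of_natDegree_lt (p := F) (by omega)]
      simp
    rw [this]
    simp

/-- sums of the shifted coefficients over a large box of integers -/
theorem shift_sum {N : ℕ} {F : P2} (h : DL N N F) (i j M : ℕ) (hM : N + i + j ≤ M)
    (φ : ℤ → ℤ → ℝ) :
    ∑ w ∈ Finset.Icc (-(M : ℤ)) M ×ˢ Finset.Icc (-(M : ℤ)) M,
      (cf F (w.1 + i) (w.2 + j) : ℝ) * φ w.1 w.2 =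
    ∑ z ∈ bx N, (co F z.1 z.2 : ℝ) * φ (z.1 - i) (z.2 - j) := by
  have hinj : Set.InjOn (fun z : ℕ × ℕ ↦ (((z.1 : ℤ) - i, (z.2 : ℤ) - j) : ℤ × ℤ)) (bx N) := by
    rintro ⟨a, b⟩ _ ⟨a', b'⟩ _ hab
    simp only [Prod.mk.injEq] at hab ⊢
    omega
  have h1 : ∑ z ∈ bx N, (co F z.1 z.2 : ℝ) * φ (z.1 - i) (z.2 - j) =
      ∑ w ∈ (bx N).image (fun z : ℕ × ℕ ↦ (((z.1 : ℤ) - i, (z.2 : ℤ) - j) : ℤ × ℤ)),
        (cf F (w.1 + i) (w.2 + j) : ℝ) * φ w.1 w.2 := by
    rw [Finset.sum_image hinj]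
    refine Finset.sum_congr rfl fun z _ ↦ ?_
    simp only [sub_add_cancel]
    unfold cf
    rw [if_pos ⟨Int.natCast_nonneg _, Int.natCast_nonneg _⟩]
    simp
  rw [h1]
  symm
  refine Finset.sum_subset ?_ ?_
  · intro w hw
    rw [mem_image] at hw
    obtain ⟨⟨a, b⟩, hab, rfl⟩ := hw
    rw [mem_bx] at hab
    rw [mem_product, Finset.mem_Icc, Finset.mem_Icc]
    simp only
    omega
  · rintro ⟨k, l⟩ _ hw
    have h0 : cf F (k + i) (l + j) = 0 := by
      unfold cf
      split_ifs with hkl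
      · by_contra hne
        have hne' : co F (k + i).toNat (l + j).toNat ≠ 0 := by exact_mod_cast hne
        obtain ⟨h2, h3⟩ := co_ne h hne'
        refine hw (mem_image.2 ⟨((k + i).toNat, (l + j).toNat), mem_bx.2 ⟨h2, h3⟩, ?_⟩)
        simp only [Prod.mk.injEq]
        omega
      · rfl
    simp only
    rw [h0]
    simp

/-- the coefficient as a sum over the box -/
theorem cf_box {N : ℕ} {F : P2} (h : DL N N F) (k l : ℤ) :
    cf F k l = ∑ z ∈ bx N, (co F z.1 z.2 : ℚ) *
      ((if (z.1 : ℤ) = k then 1 else 0) * (if (z.2 : ℤ) = l then 1 else 0)) := by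
  unfold cf
  split_ifs with hkl
  · rw [Finset.sum_eq_single (k.toNat, l.toNat)]
    · have e1 : ((k.toNat : ℕ) : ℤ) = k := by omega
      have e2 : ((l.toNat : ℕ) : ℤ) = l := by omega
      simp [e1, e2]
    · rintro ⟨a, b⟩ _ hne
      by_cases ha : (a : ℤ) = k
      · by_cases hb : (b : ℤ) = l
        · exfalso
          apply hne
          rw [Prod.mk.injEq]
          omega
        · simp [hb]
      · simp [ha]
    · intro hn
      have : co F k.toNat l.toNat = 0 := by
        by_contra hne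
        exact hn (mem_bx.2 (co_ne h hne))
      simp [this]
  · symm
    refine Finset.sum_eq_zero ?_
    rintro ⟨a, b⟩ _
    simp only
    by_cases ha : (a : ℤ) = k
    · have hb : ¬ (b : ℤ) = l := by
        intro hb
        exact hkl ⟨by omega, by omega⟩
      simp [hb]
    · simp [ha]

theorem sum_delta (f : ℕ → ℚ) (n a : ℕ) (k : ℤ) (hn : ((a : ℤ) - k) < n) :
    ∑ i ∈ range n, f i * (if (a : ℤ) = k + i then 1 else 0) =
      if k - a ≤ 0 then f (-(k - a)).toNat else 0 := by
  split_ifs with hk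
  · rw [Finset.sum_eq_single (-(k - a)).toNat]
    · rw [if_pos (by omega), mul_one]
    · intro i _ hi
      rw [if_neg (by omega), mul_zero]
    · intro hi
      rw [mem_range, not_lt] at hi
      omega
  · refine Finset.sum_eq_zero fun i _ ↦ ?_
    rw [if_neg (by omega), mul_zero]

end Pool.Agent.Helper53.OV.VI
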