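import Pool.Agent.Helper53.OV.VIa

/-!
# OV-VI, part b: truncated square roots
-/

set_option autoImplicit false

namespace Pool.Agent.Helper53.OV.VI

open Pool.Agent.Helper7.OV
open Finset

theorem sum_antidiag (N : ℕ) (g : ℕ × ℕ → ℝ) :
    ∑ n ∈ range N, ∑ z ∈ antidiagonal n, g z =
      ∑ z ∈ (range N ×ˢ range N).filter (fun z ↦ z.1 + z.2 < N), g z := by
  rw [← Finset.sum_fiberwise_of_maps_to (t := range N) (g := fun z : ℕ × ℕ ↦ z.1 + z.2)]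
  · refine Finset.sum_congr rfl fun n hn ↦ ?_
    refine Finset.sum_congr ?_ fun _ _ ↦ rfl
    ext ⟨a, b⟩
    simp only [Finset.HasAntidiagonal.mem_antidiagonal, mem_filter, mem_product, mem_range] at hn ⊢
    omega
  · rintro ⟨a, b⟩ hz
    simp only [mem_filter, mem_product, mem_range] at hz ⊢
    omega

/-- the square of a truncated power series with coefficients at most one -/
theorem sq_trunc (c : ℕ → ℝ) (hc : ∀ i, |c i| ≤ 1) (x : ℝ) (hx0 : 0 ≤ x) (hx1 : x ≤ 1) (N : ℕ) :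
    |(∑ i ∈ range N, c i * x ^ i) ^ 2 -
      ∑ n ∈ range N, (∑ z ∈ antidiagonal n, c z.1 * c z.2) * x ^ n| ≤ (N : ℝ) ^ 2 * x ^ N := by
  have h1 : (∑ i ∈ range N, c i * x ^ i) ^ 2 =
      ∑ z ∈ range N ×ˢ range N, c z.1 * c z.2 * x ^ (z.1 + z.2) := by
    rw [sq, Finset.sum_mul_sum, ← Finset.sum_product']
    refine Finset.sum_congr rfl fun z _ ↦ ?_
    rw [pow_add]
    ring
  have h2 : ∑ n ∈ range N, (∑ z ∈ antidiagonal n, c z.1 * c z.2) * x ^ n =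
      ∑ z ∈ (range N ×ˢ range N).filter (fun z ↦ z.1 + z.2 < N), c z.1 * c z.2 * x ^ (z.1 + z.2) := by
    rw [← sum_antidiag N (fun z ↦ c z.1 * c z.2 * x ^ (z.1 + z.2))]
    refine Finset.sum_congr rfl fun n _ ↦ ?_
    rw [Finset.sum_mul]
    refine Finset.sum_congr rfl fun z hz ↦ ?_
    rw [Finset.HasAntidiagonal.mem_antidiagonal.1 hz]
  rw [h1, h2, ← Finset.sum_filter_add_sum_filter_not (range N ×ˢ range N) (fun z ↦ z.1 + z.2 < N),
    add_sub_cancel_left]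
  refine (Finset.abs_sum_le_sum_abs _ _).trans ?_
  have h3 : ∀ z ∈ (range N ×ˢ range N).filter (fun z ↦ ¬ z.1 + z.2 < N),
      |c z.1 * c z.2 * x ^ (z.1 + z.2)| ≤ x ^ N := by
    intro z hz
    rw [mem_filter, not_lt] at hz
    rw [abs_mul, abs_mul, abs_of_nonneg (pow_nonneg hx0 _)]
    have h4 : |c z.1| * |c z.2| ≤ 1 := by
      have := mul_le_mul (hc z.1) (hc z.2) (abs_nonneg _) zero_le_one
      simpa using this
    have h5 : x ^ (z.1 + z.2) ≤ x ^ N := pow_le_pow_of_le_one hx0 hx1 hz.2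
    have h6 : 0 ≤ x ^ (z.1 + z.2) := pow_nonneg hx0 _
    calc |c z.1| * |c z.2| * x ^ (z.1 + z.2) ≤ 1 * x ^ (z.1 + z.2) :=
          mul_le_mul_of_nonneg_right h4 h6
      _ ≤ x ^ N := by rw [one_mul]; exact h5
  refine (Finset.sum_le_sum h3).trans ?_
  rw [Finset.sum_const, nsmul_eq_mul]
  have h4 : ((((range N ×ˢ range N).filter (fun z ↦ ¬ z.1 + z.2 < N)).card : ℕ) : ℝ) ≤ (N : ℝ) ^ 2 := by
    have h5 := Finset.card_filter_le (range N ×ˢ range N) (fun z ↦ ¬ z.1 + z.2 < N)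
    rw [card_product, card_range] at h5
    calc _ ≤ ((N * N : ℕ) : ℝ) := by exact_mod_cast h5
      _ = _ := by push_cast; ring
  exact mul_le_mul_of_nonneg_right h4 (pow_nonneg hx0 _)

/-- the truncated series of `(1 - x)^(1/2)` -/
noncomputable def Aa (n : ℕ) (x : ℝ) : ℝ := ∑ i ∈ range n, (al i : ℝ) * x ^ i

/-- the truncated series of `(1 - y)^(-1/2)` -/
noncomputable def Bb (n : ℕ) (y : ℝ) : ℝ := ∑ j ∈ range n, (be j : ℝ) * y ^ j

theorem Aa_sq (hS : S_SQR) (n : ℕ) (hn : 2 ≤ n) (x : ℝ) (hx0 : 0 ≤ x) (hx1 : x ≤ 1) :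
    |Aa n x ^ 2 - (1 - x)| ≤ (n : ℝ) ^ 2 * x ^ n := by
  have h1 := sq_trunc (fun i ↦ (al i : ℝ)) (fun i ↦ by
    have := (hS.2.2.2.1 i).1
    have h : ((|al i| : ℚ) : ℝ) ≤ ((1 : ℚ) : ℝ) := by exact_mod_cast this
    push_cast at h
    exact h) x hx0 hx1 n
  have h2 : ∑ m ∈ range n, (∑ z ∈ antidiagonal m, (al z.1 : ℝ) * (al z.2 : ℝ)) * x ^ m = 1 - x := by
    have h3 : ∀ m, (∑ z ∈ antidiagonal m, (al z.1 : ℝ) * (al z.2 : ℝ)) =
        if m = 0 then 1 else if m = 1 then -1 else 0 := by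
      intro m
      have := hS.1 m
      have h4 : ((∑ z ∈ antidiagonal m, al z.1 * al z.2 : ℚ) : ℝ) =
          ((if m = 0 then 1 else if m = 1 then -1 else 0 : ℚ) : ℝ) := by rw [this]
      push_cast at h4
      rw [h4]
      split_ifs <;> simp
    obtain ⟨k, rfl⟩ := Nat.exists_eq_add_of_le hn
    rw [add_comm 2 k, Finset.sum_range_succ', Finset.sum_range_succ']
    rw [Finset.sum_eq_zero]
    · rw [h3, h3]
      simp
      ring
    · intro m _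
      rw [h3, if_neg (by omega), if_neg (by omega), zero_mul]
  rw [h2] at h1
  exact h1

theorem Bb_sq (hS : S_SQR) (n : ℕ) (y : ℝ) (hy0 : 0 ≤ y) (hy1 : y ≤ 1) :
    |Bb n y ^ 2 * (1 - y) - 1| ≤ ((n : ℝ) ^ 2 + 1) * y ^ n := by
  have h1 := sq_trunc (fun i ↦ (be i : ℝ)) (fun i ↦ by
    obtain ⟨-, h2, h3⟩ := hS.2.2.2.1 i
    have h : ((be i : ℚ) : ℝ) ≤ ((1 : ℚ) : ℝ) := by exact_mod_cast h3
    have h' : ((0 : ℚ) : ℝ) ≤ ((be i : ℚ) : ℝ) := by exact_mod_cast h2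
    push_cast at h h'
    rw [abs_of_nonneg h']
    exact h) y hy0 hy1 n
  have h2 : ∑ m ∈ range n, (∑ z ∈ antidiagonal m, (be z.1 : ℝ) * (be z.2 : ℝ)) * y ^ m =
      ∑ m ∈ range n, y ^ m := by
    refine Finset.sum_congr rfl fun m _ ↦ ?_
    have := hS.2.1 m
    have h4 : ((∑ z ∈ antidiagonal m, be z.1 * be z.2 : ℚ) : ℝ) = ((1 : ℚ) : ℝ) := by rw [this]
    push_cast at h4
    rw [h4, one_mul]
  rw [h2] at h1
  have h3 : (∑ m ∈ range n, y ^ m) * (1 - y) = 1 - y ^ n := by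
    have := geom_sum_mul_neg y n
    exact this
  have h4 : Bb n y ^ 2 * (1 - y) - 1 =
      (Bb n y ^ 2 - ∑ m ∈ range n, y ^ m) * (1 - y) - y ^ n := by
    have : (Bb n y ^ 2 - ∑ m ∈ range n, y ^ m) * (1 - y) =
        Bb n y ^ 2 * (1 - y) - (∑ m ∈ range n, y ^ m) * (1 - y) := by ring
    rw [this, h3]
    ring
  have hyn : 0 ≤ y ^ n := pow_nonneg hy0 _
  rw [h4]
  refine (abs_sub _ _).trans ?_
  rw [abs_mul, abs_of_nonneg hyn, abs_of_nonneg (by linarith : 0 ≤ 1 - y)]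
  have h5 : |Bb n y ^ 2 - ∑ m ∈ range n, y ^ m| * (1 - y) ≤ (n : ℝ) ^ 2 * y ^ n * 1 := by
    refine mul_le_mul h1 (by linarith) (by linarith) (by positivity)
  linarith

theorem Bb_nonneg (hS : S_SQR) (n : ℕ) (y : ℝ) (hy0 : 0 ≤ y) : 0 ≤ Bb n y := by
  refine Finset.sum_nonneg fun i _ ↦ mul_nonneg ?_ (pow_nonneg hy0 _)
  exact_mod_cast (hS.2.2.2.1 i).2.1

theorem Aa_nonneg (hS : S_SQR) (n : ℕ) (hn : 1 ≤ n) (x : ℝ) (hx0 : 0 ≤ x) (hx1 : x ≤ 1 / 2) :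
    0 ≤ Aa n x := by
  obtain ⟨k, rfl⟩ := Nat.exists_eq_add_of_le hn
  unfold Aa
  rw [add_comm 1 k, Finset.sum_range_succ']
  have h0 : (al 0 : ℝ) = 1 := by exact_mod_cast hS.2.2.1.1
  rw [h0]
  have h1 : ∀ i ∈ range k, -(1 / 2 * x) * x ^ i ≤ (al (i + 1) : ℝ) * x ^ (i + 1) := by
    intro i _
    have h2 := (hS.2.2.2.2.1 (i + 1) (by omega)).2
    have h3 : ((|al (i + 1)| : ℚ) : ℝ) ≤ ((1 / 2 : ℚ) : ℝ) := by exact_mod_cast h2
    push_cast at h3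
    have h4 := neg_abs_le (al (i + 1) : ℝ)
    have h5 : 0 ≤ x ^ (i + 1) := pow_nonneg hx0 _
    have h6 : -(1 / 2 * x) * x ^ i = -(1 / 2) * x ^ (i + 1) := by ring
    rw [h6]
    exact mul_le_mul_of_nonneg_right (by linarith) h5
  have h2 := Finset.sum_le_sum h1
  rw [← Finset.mul_sum] at h2
  have h3 : (∑ m ∈ range k, x ^ m) * (1 - x) = 1 - x ^ k := geom_sum_mul_neg x k
  have h4 : 0 ≤ x ^ k := pow_nonneg hx0 _
  have h5 : 0 ≤ ∑ m ∈ range k, x ^ m := Finset.sum_nonneg fun i _ ↦ pow_nonneg hx0 _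
  have h6 : ∑ m ∈ range k, x ^ m ≤ 2 := by nlinarith
  have h7 : x * ∑ m ∈ range k, x ^ m ≤ 1 := by nlinarith
  simp only [pow_zero, mul_one]
  nlinarith

end Pool.Agent.Helper53.OV.VI
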