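import Pool.Agent.Helper53.OV.VIb

/-!
# OV-VI, part c: estimates
-/

set_option autoImplicit false

namespace Pool.Agent.Helper53.OV.VI

open Pool.Agent.Helper7.OV
open Finset

theorem near (hS : S_SQR) (s t p q : ℕ) (hp : 2 ≤ p) (hpq : p < q) (ht : 1 ≤ t) (hts : t ≤ s)
    (hUV : p ^ s < q ^ t) (hVU : q ^ t ≤ 2 * p ^ s)
    (heq : ((q : ℤ) - 1) * p * ((p : ℤ) ^ s) ^ 2 = ((p : ℤ) - 1) * (q : ℤ) ^ (2 * t + 1) + ((q : ℤ) - p)) :
    |(p : ℝ) ^ s - (q : ℝ) ^ t * (Aa (2 * s) (1 / p) * Bb (2 * t) (1 / q))| * (q : ℝ) ^ t ≤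
      306 * (s : ℝ) ^ 2 := by
  have hp' : (2 : ℝ) ≤ p := by exact_mod_cast hp
  have hq' : (3 : ℝ) ≤ q := by exact_mod_cast (by omega : 3 ≤ q)
  have hpq' : (p : ℝ) < q := by exact_mod_cast hpq
  have hs1 : (1 : ℝ) ≤ s := by exact_mod_cast (ht.trans hts)
  have ht1 : (1 : ℝ) ≤ t := by exact_mod_cast ht
  have hts' : (t : ℝ) ≤ s := by exact_mod_cast hts
  set U : ℝ := (p : ℝ) ^ s with hU
  set V : ℝ := (q : ℝ) ^ t with hV
  set x : ℝ := 1 / p with hx
  set y : ℝ := 1 / q with hy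
  have hUV' : U < V := by rw [hU, hV]; exact_mod_cast hUV
  have hVU' : V ≤ 2 * U := by rw [hU, hV]; exact_mod_cast hVU
  have hsU : (s : ℝ) ≤ U := by
    have h1 : s < 2 ^ s := Nat.lt_two_pow_self
    have h2 : 2 ^ s ≤ p ^ s := Nat.pow_le_pow_left hp s
    rw [hU]
    exact_mod_cast (h1.le.trans h2)
  have hU0 : 0 < U := by linarith
  have hV0 : 0 < V := by linarith
  have hpx : (p : ℝ) * x = 1 := by rw [hx]; field_simp
  have hqy : (q : ℝ) * y = 1 := by rw [hy]; field_simp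
  have hx0 : 0 < x := by rw [hx]; positivity
  have hy0 : 0 < y := by rw [hy]; positivity
  have hx2 : x ≤ 1 / 2 := by nlinarith
  have hy3 : y ≤ 1 / 3 := by nlinarith
  have hyx : y ≤ x := by
    rw [hx, hy]
    exact one_div_le_one_div_of_le (by linarith) hpq'.le
  have hUx : x ^ (2 * s) * U ^ 2 = 1 := by
    rw [hU, ← pow_mul, mul_comm s 2, ← mul_pow, mul_comm x, hpx, one_pow]
  have hVy : y ^ (2 * t) * V ^ 2 = 1 := by
    rw [hV, ← pow_mul, mul_comm t 2, ← mul_pow, mul_comm y, hqy, one_pow]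
  -- the equation
  have hE : (1 - y) * U ^ 2 = (1 - x) * V ^ 2 + (x - y) := by
    have h1 : ((q : ℝ) - 1) * p * U ^ 2 = ((p : ℝ) - 1) * (q * V ^ 2) + ((q : ℝ) - p) := by
      have h2 : (((((q : ℤ) - 1) * p * ((p : ℤ) ^ s) ^ 2 : ℤ)) : ℝ) =
          ((((p : ℤ) - 1) * (q : ℤ) ^ (2 * t + 1) + ((q : ℤ) - p) : ℤ) : ℝ) := by rw [heq]
      push_cast at h2
      rw [hU, hV, h2]
      ring
    have h3 : (1 - y) * U ^ 2 = (((q : ℝ) - 1) * p * U ^ 2) * (x * y) := by
      have : (((q : ℝ) - 1) * p * U ^ 2) * (x * y) = (q * y - y) * (p * x) * U ^ 2 := by ring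
      rw [this, hpx, hqy]
      ring
    rw [h3, h1]
    have : (((p : ℝ) - 1) * (q * V ^ 2) + ((q : ℝ) - p)) * (x * y) =
        (p * x - x) * (q * y) * V ^ 2 + ((q * y) * x - (p * x) * y) := by ring
    rw [this, hpx, hqy]
    ring
  -- the series
  set A := Aa (2 * s) x with hA
  set B := Bb (2 * t) y with hB
  have ha := Aa_sq hS (2 * s) (by omega) x hx0.le (by linarith)
  have hb := Bb_sq hS (2 * t) y hy0.le (by linarith)
  have hA0 : 0 ≤ A := Aa_nonneg hS (2 * s) (by omega) x hx0.le hx2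
  have hB0 : 0 ≤ B := Bb_nonneg hS (2 * t) y hy0.le
  rw [← hA] at ha
  rw [← hB] at hb
  set a := A ^ 2 - (1 - x) with haa
  set b := B ^ 2 * (1 - y) - 1 with hbb
  have hVV : V ^ 2 ≤ 4 * U ^ 2 := by nlinarith
  have ha2 : |a| * V ^ 2 ≤ 16 * (s : ℝ) ^ 2 := by
    push_cast at ha
    have h1 : |a| * U ^ 2 ≤ 4 * (s : ℝ) ^ 2 := by
      calc |a| * U ^ 2 ≤ ((2 * (s : ℝ)) ^ 2 * x ^ (2 * s)) * U ^ 2 :=
            mul_le_mul_of_nonneg_right ha (by positivity)
        _ = 4 * (s : ℝ) ^ 2 * (x ^ (2 * s) * U ^ 2) := by ring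
        _ = _ := by rw [hUx, mul_one]
    calc |a| * V ^ 2 ≤ |a| * (4 * U ^ 2) := mul_le_mul_of_nonneg_left hVV (abs_nonneg _)
      _ = 4 * (|a| * U ^ 2) := by ring
      _ ≤ 4 * (4 * (s : ℝ) ^ 2) := by linarith
      _ = _ := by ring
  have hb2 : |b| * V ^ 2 ≤ 5 * (s : ℝ) ^ 2 := by
    push_cast at hb
    have h1 : |b| * V ^ 2 ≤ 4 * (t : ℝ) ^ 2 + 1 := by
      calc |b| * V ^ 2 ≤ (((2 * (t : ℝ)) ^ 2 + 1) * y ^ (2 * t)) * V ^ 2 :=
            mul_le_mul_of_nonneg_right hb (by positivity)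
        _ = (4 * (t : ℝ) ^ 2 + 1) * (y ^ (2 * t) * V ^ 2) := by ring
        _ = _ := by rw [hVy, mul_one]
    nlinarith
  have hb3 : |b| ≤ 5 := by
    have h1 : (s : ℝ) ^ 2 ≤ V ^ 2 := by nlinarith
    have h2 : |b| * V ^ 2 ≤ 5 * V ^ 2 := by linarith
    exact le_of_mul_le_mul_right h2 (by positivity)
  have hab : |a * b| * V ^ 2 ≤ 80 * (s : ℝ) ^ 2 := by
    rw [abs_mul]
    calc |a| * |b| * V ^ 2 = (|a| * V ^ 2) * |b| := by ring
      _ ≤ (16 * (s : ℝ) ^ 2) * 5 := mul_le_mul ha2 hb3 (abs_nonneg _) (by positivity)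
      _ = _ := by ring
  have hmain : (U - V * (A * B)) * ((U + V * (A * B)) * (1 - y)) =
      (x - y) - ((1 - x) * (b * V ^ 2) + a * V ^ 2 + a * b * V ^ 2) := by
    have h1 : (U - V * (A * B)) * ((U + V * (A * B)) * (1 - y)) =
        (1 - y) * U ^ 2 - V ^ 2 * (A ^ 2 * (B ^ 2 * (1 - y))) := by ring
    have h2 : A ^ 2 = 1 - x + a := by rw [haa]; ring
    have h3 : B ^ 2 * (1 - y) = 1 + b := by rw [hbb]; ring
    rw [h1, hE, h2, h3]
    ring
  have hD : |U - V * (A * B)| * ((U + V * (A * B)) * (1 - y)) ≤ 102 * (s : ℝ) ^ 2 := by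
    have hpos : 0 ≤ (U + V * (A * B)) * (1 - y) := by
      have : 0 ≤ V * (A * B) := by positivity
      have h1 : 0 ≤ 1 - y := by linarith
      positivity
    rw [← abs_of_nonneg hpos, ← abs_mul, hmain]
    refine (abs_sub _ _).trans ?_
    have h1 : |x - y| ≤ 1 := by
      rw [abs_of_nonneg (by linarith)]
      linarith
    have h2 : |(1 - x) * (b * V ^ 2) + a * V ^ 2 + a * b * V ^ 2| ≤
        5 * (s : ℝ) ^ 2 + 16 * (s : ℝ) ^ 2 + 80 * (s : ℝ) ^ 2 := by
      refine (abs_add_three _ _ _).trans ?_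
      have e1 : |(1 - x) * (b * V ^ 2)| ≤ 5 * (s : ℝ) ^ 2 := by
        rw [abs_mul, abs_mul, abs_of_nonneg (by positivity : 0 ≤ V ^ 2),
          abs_of_nonneg (by linarith : 0 ≤ 1 - x)]
        have : (1 - x) * (|b| * V ^ 2) ≤ 1 * (|b| * V ^ 2) :=
          mul_le_mul_of_nonneg_right (by linarith) (by positivity)
        linarith
      have e2 : |a * V ^ 2| ≤ 16 * (s : ℝ) ^ 2 := by
        rw [abs_mul, abs_of_nonneg (by positivity : 0 ≤ V ^ 2)]
        exact ha2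
      have e3 : |a * b * V ^ 2| ≤ 80 * (s : ℝ) ^ 2 := by
        rw [abs_mul, abs_of_nonneg (by positivity : 0 ≤ V ^ 2)]
        exact hab
      linarith
    nlinarith
  have hlow : V / 3 ≤ (U + V * (A * B)) * (1 - y) := by
    have h1 : V / 2 ≤ U + V * (A * B) := by
      have : 0 ≤ V * (A * B) := by positivity
      linarith
    have h2 : 2 / 3 ≤ 1 - y := by linarith
    calc V / 3 = (V / 2) * (2 / 3) := by ring
      _ ≤ _ := mul_le_mul h1 h2 (by norm_num) (by linarith)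
  have hfin : |U - V * (A * B)| * (V / 3) ≤ 102 * (s : ℝ) ^ 2 :=
    (mul_le_mul_of_nonneg_left hlow (abs_nonneg _)).trans hD
  linarith

theorem log_facts {s t p q : ℕ} (hp : 2 ≤ p) (hpq : p < q)
    (hUV : p ^ s < q ^ t) (hVU : q ^ t ≤ 2 * p ^ s) :
    0 < Real.log p ∧ 0 < Real.log q ∧ (s : ℝ) * Real.log p ≤ t * Real.log q ∧
      (t : ℝ) * Real.log q ≤ Real.log 2 + s * Real.log p := by
  have hp' : (1 : ℝ) < p := by exact_mod_cast (by omega : 1 < p)
  have hq' : (1 : ℝ) < q := by exact_mod_cast (by omega : 1 < q)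
  refine ⟨Real.log_pos hp', Real.log_pos hq', ?_, ?_⟩
  · rw [← Real.log_pow, ← Real.log_pow]
    refine Real.log_le_log (by positivity) ?_
    exact_mod_cast hUV.le
  · rw [← Real.log_pow, ← Real.log_pow, ← Real.log_mul (by norm_num) (by positivity)]
    refine Real.log_le_log (by positivity) ?_
    exact_mod_cast hVU

/-- the size of the small monomials -/
theorem wt_bound {s t p q : ℕ} (hp : 2 ≤ p) (hpq : p < q) (ht : 1 ≤ t) (hts : t ≤ s)
    (hUV : p ^ s < q ^ t) (hVU : q ^ t ≤ 2 * p ^ s) (S k l : ℤ) (hk : -(2 * (s : ℤ)) < k)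
    (hkl : k * t + l * s ≤ S - s * t) :
    (q : ℝ) ^ t * ((p : ℝ) ^ k * (q : ℝ) ^ l) ≤ 4 * Real.exp ((S : ℝ) / s * Real.log q) := by
  obtain ⟨hLp, hLq, h1, h2⟩ := log_facts hp hpq hUV hVU
  have hs1 : (1 : ℝ) ≤ s := by exact_mod_cast (ht.trans hts)
  have hp0 : (0 : ℝ) < p := by exact_mod_cast (by omega : 0 < p)
  have hq0 : (0 : ℝ) < q := by exact_mod_cast (by omega : 0 < q)
  have hpos : 0 < (q : ℝ) ^ t * ((p : ℝ) ^ k * (q : ℝ) ^ l) := by positivity
  have hlog : Real.log ((q : ℝ) ^ t * ((p : ℝ) ^ k * (q : ℝ) ^ l)) =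
      t * Real.log q + (k * Real.log p + l * Real.log q) := by
    rw [Real.log_mul (by positivity) (by positivity), Real.log_mul (by positivity) (by positivity),
      Real.log_pow, Real.log_zpow, Real.log_zpow]
  rw [← Real.log_le_log_iff hpos (by positivity), hlog, Real.log_mul (by norm_num) (by positivity),
    Real.log_exp]
  have hl4 : Real.log 4 = 2 * Real.log 2 := by
    rw [show (4 : ℝ) = 2 ^ 2 by norm_num, Real.log_pow]
    norm_num
  have hl2 : 0 < Real.log 2 := Real.log_pos (by norm_num)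
  rw [hl4]
  have hkl' : (k : ℝ) * t + l * s ≤ S - s * t := by exact_mod_cast hkl
  have hk' : -(2 * (s : ℝ)) < k := by exact_mod_cast hk
  -- s * k * log p ≤ k * t * log q + 2 s log 2
  have h3 : (s : ℝ) * (k * Real.log p) ≤ k * t * Real.log q + 2 * s * Real.log 2 := by
    rcases le_or_gt 0 (k : ℝ) with hk0 | hk0
    · have h4 : (k : ℝ) * (s * Real.log p) ≤ k * (t * Real.log q) := mul_le_mul_of_nonneg_left h1 hk0
      have h5 : 0 ≤ 2 * (s : ℝ) * Real.log 2 := by positivity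
      linarith
    · have h4 : (-(k : ℝ)) * (t * Real.log q) ≤ (-k) * (Real.log 2 + s * Real.log p) :=
        mul_le_mul_of_nonneg_left h2 (by linarith)
      have h5 : (-(k : ℝ)) * Real.log 2 ≤ 2 * s * Real.log 2 :=
        mul_le_mul_of_nonneg_right (by linarith) hl2.le
      linarith
  have h4 : ((s : ℝ) * t + k * t + l * s) * Real.log q ≤ S * Real.log q :=
    mul_le_mul_of_nonneg_right (by linarith) hLq.le
  have h5 : (s : ℝ) * (t * Real.log q + (k * Real.log p + l * Real.log q)) ≤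
      s * (2 * Real.log 2 + (S : ℝ) / s * Real.log q) := by
    have h6 : (s : ℝ) * ((S : ℝ) / s * Real.log q) = S * Real.log q := by
      field_simp
    rw [mul_add (s : ℝ) (2 * Real.log 2), h6]
    linarith
  exact le_of_mul_le_mul_left h5 (by linarith)

/-- the size of the monomials of `B` -/
theorem mon_bound {s t p q : ℕ} (hp : 2 ≤ p) (hpq : p < q) (ht : 1 ≤ t) (hts : t ≤ s)
    (hUV : p ^ s < q ^ t) (hVU : q ^ t ≤ 2 * p ^ s) (S : ℤ) (a b : ℕ)
    (hab : (a : ℤ) * t + b * s ≤ S + s * t) :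
    (p : ℝ) ^ a * (q : ℝ) ^ b ≤ Real.exp ((S : ℝ) / s * Real.log q) * (q : ℝ) ^ t := by
  obtain ⟨hLp, hLq, h1, h2⟩ := log_facts hp hpq hUV hVU
  have hs1 : (1 : ℝ) ≤ s := by exact_mod_cast (ht.trans hts)
  have hp0 : (0 : ℝ) < p := by exact_mod_cast (by omega : 0 < p)
  have hq0 : (0 : ℝ) < q := by exact_mod_cast (by omega : 0 < q)
  have hpos : 0 < (p : ℝ) ^ a * (q : ℝ) ^ b := by positivity
  have hlog : Real.log ((p : ℝ) ^ a * (q : ℝ) ^ b) = a * Real.log p + b * Real.log q := by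
    rw [Real.log_mul (by positivity) (by positivity), Real.log_pow, Real.log_pow]
  rw [← Real.log_le_log_iff hpos (by positivity), hlog, Real.log_mul (by positivity) (by positivity),
    Real.log_exp, Real.log_pow]
  have hab' : (a : ℝ) * t + b * s ≤ S + s * t := by exact_mod_cast hab
  have h3 : (a : ℝ) * (s * Real.log p) ≤ a * (t * Real.log q) :=
    mul_le_mul_of_nonneg_left h1 (by positivity)
  have h4 : ((a : ℝ) * t + b * s) * Real.log q ≤ (S + s * t) * Real.log q :=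
    mul_le_mul_of_nonneg_right hab' hLq.le
  have h5 : (s : ℝ) * (a * Real.log p + b * Real.log q) ≤
      s * ((S : ℝ) / s * Real.log q + t * Real.log q) := by
    have h6 : (s : ℝ) * ((S : ℝ) / s * Real.log q) = S * Real.log q := by
      field_simp
    rw [mul_add (s : ℝ) ((S : ℝ) / s * Real.log q), h6]
    linarith
  exact le_of_mul_le_mul_left h5 (by linarith)

theorem B_bound {s t p q : ℕ} (hp : 2 ≤ p) (hpq : p < q) (ht : 1 ≤ t) (hts : t ≤ s)
    (hUV : p ^ s < q ^ t) (hVU : q ^ t ≤ 2 * p ^ s) (S : ℤ) (B : P2)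
    (hB : Cond (-t) (-s) (-(S + s * t)) (cf B)) :
    |(ev p q B : ℝ)| ≤ len B * (Real.exp ((S : ℝ) / s * Real.log q) * (q : ℝ) ^ t) := by
  obtain ⟨N, hN⟩ := exists_DL B
  rw [ev_box hN, len_box_real hN]
  push_cast
  refine (Finset.abs_sum_le_sum_abs _ _).trans ?_
  rw [Finset.sum_mul]
  refine Finset.sum_le_sum fun z _ ↦ ?_
  rw [abs_mul, abs_of_nonneg (by positivity : (0 : ℝ) ≤ (p : ℝ) ^ z.1 * (q : ℝ) ^ z.2)]
  by_cases h0 : co B z.1 z.2 = 0
  · rw [h0]
    simp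
  · refine mul_le_mul_of_nonneg_left (mon_bound hp hpq ht hts hUV hVU S z.1 z.2 ?_) (abs_nonneg _)
    by_contra hlt
    rw [not_le] at hlt
    have h1 := hB z.1 z.2 (by linarith)
    unfold cf at h1
    rw [if_pos ⟨Int.natCast_nonneg _, Int.natCast_nonneg _⟩] at h1
    simp only [Int.toNat_natCast] at h1
    exact h0 (by exact_mod_cast h1)

end Pool.Agent.Helper53.OV.VI
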